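import Pool.Agent.W792.WA.Stm

/-!
# Base case: a uniform gap for the first level at weak disorder
-/

set_option autoImplicit false

namespace Pool.Agent.W414.WA

open MeasureTheory Filter Set
open Pool.Agent.W792.LL Pool.Agent.W792.WA
open scoped Topology

lemma lev_meas (ψ : C(UnitAddCircle, ℝ)) (r : ℝ) :
    Measurable fun φ : ℝ => r * ψ (φ : UnitAddCircle) := by
  apply Continuous.measurable
  exact continuous_const.mul (ψ.continuous.comp (AddCircle.continuous_mk' (1 : ℝ)))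

lemma lev_prob (ψ : C(UnitAddCircle, ℝ)) (r : ℝ) : IsProbabilityMeasure (lev ψ r) := by
  unfold lev
  have : IsProbabilityMeasure (volume.restrict (Set.Ioc (0 : ℝ) 1)) := by
    constructor
    simp
  exact Measure.isProbabilityMeasure_map (lev_meas ψ r).aemeasurable

lemma lev_supp (ψ : C(UnitAddCircle, ℝ)) (hψ : IsSemi ψ) (r : ℝ) (hr : 0 < r) :
    ∀ᵐ a ∂(lev ψ r), |a| ≤ r := by
  unfold lev
  rw [ae_map_iff (lev_meas ψ r).aemeasurable (measurableSet_le measurable_abs measurable_const)]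
  refine ae_of_all _ fun φ => ?_
  rw [abs_mul, abs_of_pos hr]
  have := hψ.bound (φ : UnitAddCircle)
  nlinarith

lemma conv_supp (μ ρ : Measure ℝ) [IsProbabilityMeasure μ] [IsProbabilityMeasure ρ] (r S : ℝ)
    (hμ : ∀ᵐ a ∂μ, |a| ≤ r) (hρ : ρ (Set.Icc (-S) S)ᶜ = 0) :
    (μ.conv ρ) (Set.Icc (-(r + S)) (r + S))ᶜ = 0 := by
  have hρ' : ∀ᵐ b ∂ρ, b ∈ Set.Icc (-S) S := hρ
  have h1 : ∀ᵐ p ∂(μ.prod ρ), |p.1| ≤ r :=
    Measure.quasiMeasurePreserving_fst.ae hμ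
  have h2 : ∀ᵐ p ∂(μ.prod ρ), p.2 ∈ Set.Icc (-S) S :=
    Measure.quasiMeasurePreserving_snd.ae hρ'
  have h3 : ∀ᵐ a ∂(μ.conv ρ), a ∈ Set.Icc (-(r + S)) (r + S) := by
    unfold Measure.conv
    refine (ae_map_iff (p := fun a : ℝ => a ∈ Set.Icc (-(r + S)) (r + S))
      (measurable_fst.add measurable_snd).aemeasurable measurableSet_Icc).mpr ?_
    filter_upwards [h1, h2] with p hp1 hp2
    rw [abs_le] at hp1
    show -(r + S) ≤ p.1 + p.2 ∧ p.1 + p.2 ≤ r + S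
    exact ⟨by linarith [hp1.1, hp2.1], by linarith [hp1.2, hp2.2]⟩
  exact h3

lemma cay_den (x : ℝ) : (x : ℂ) - Complex.I ≠ 0 := by
  intro h
  have := congrArg Complex.im h
  simp at this

lemma cay_norm (x : ℝ) : ‖cay x‖ = 1 := by
  unfold cay
  rw [norm_div]
  have h1 : ‖(x : ℂ) + Complex.I‖ = ‖(x : ℂ) - Complex.I‖ := by
    rw [← Complex.norm_conj ((x : ℂ) - Complex.I)]
    congr 1
    simp
  rw [h1, div_self (norm_ne_zero_iff.mpr (cay_den x))]

lemma cay_add_one (x : ℝ) : ‖cay x + 1‖ ≤ 2 * |x| := by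
  have h1 : cay x + 1 = 2 * x / ((x : ℂ) - Complex.I) := by
    unfold cay
    rw [eq_div_iff (cay_den x), add_mul, div_mul_cancel₀ _ (cay_den x)]
    ring
  have h2 : 1 ≤ ‖(x : ℂ) - Complex.I‖ := by
    have := Complex.abs_im_le_norm ((x : ℂ) - Complex.I)
    simpa using this
  rw [h1, norm_div, norm_mul, Complex.norm_real, Real.norm_eq_abs]
  have h3 : ‖(2 : ℂ)‖ = 2 := by simp
  rw [h3]
  apply div_le_of_le_mul₀ (by positivity) (by positivity)
  nlinarith [abs_nonneg x]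

lemma cay_meas : Measurable cay := by
  unfold cay
  fun_prop

lemma cay_int (ν : Measure ℝ) [IsProbabilityMeasure ν] : Integrable cay ν := by
  apply Integrable.of_bound cay_meas.aestronglyMeasurable 1
  exact ae_of_all _ fun x => (cay_norm x).le

/-- the theorem -/
theorem main : S_SC1 → S_UUC → S_PSI → S_FIX → S_PERT → S_BASEJ → S_CX → S_BASE := by
  intro hSC1 hUUC _ hFIX hPERT hBJ hCX ψ hψ r d hr hd
  obtain ⟨S, δ₁, J₀, CB, hS, hδ₁, hJ₀, hCB, hBJ'⟩ := hBJ ψ hψ r d hr hd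
  obtain ⟨hcx1, -, hcx3, hcx4⟩ := hCX
  refine ⟨S, hS, fun κ hκ => ?_⟩
  obtain ⟨c₀, hc₀, hP⟩ := hPERT CB hCB
  set J : ℝ := min J₀ 1 with hJdef
  have hJ : 0 < J := lt_min hJ₀ one_pos
  have hJ1 : J ≤ 1 := min_le_right _ _
  have hJJ : J ≤ J₀ := min_le_left _ _
  have hκJ : 0 < Real.sqrt (κ * J) := Real.sqrt_pos.mpr (mul_pos hκ hJ)
  refine ⟨min (min δ₁ c₀) (min (c₀ * Real.sqrt (κ * J)) (1 / 2)), by positivity, ?_⟩
  intro ν _ δ hδ hδ₂ hν hvr
  have hδ1 : δ ≤ δ₁ := hδ₂.trans ((min_le_left _ _).trans (min_le_left _ _))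
  have hδc : δ ≤ c₀ := hδ₂.trans ((min_le_left _ _).trans (min_le_right _ _))
  have hδκ : δ ≤ c₀ * Real.sqrt (κ * J) := hδ₂.trans ((min_le_right _ _).trans (min_le_left _ _))
  have hvpos : 0 < vr ν := lt_of_lt_of_le (by positivity) hvr
  have hv1 : vr ν ≤ 1 := by
    unfold vr
    have := sq_nonneg ‖∫ x, cay x ∂ν‖
    linarith
  have hvJ : 0 < vr ν * J := mul_pos hvpos hJ
  have hvJ1 : vr ν * J ≤ 1 := mul_le_one₀ hv1 hJ.le hJ1
  have hsq : δ ^ 2 ≤ c₀ * Real.sqrt (vr ν * J) := by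
    have h1 : δ * Real.sqrt (κ * J) ≤ Real.sqrt (vr ν * J) := by
      apply Real.le_sqrt_of_sq_le
      rw [mul_pow, Real.sq_sqrt (mul_pos hκ hJ).le]
      nlinarith
    calc δ ^ 2 = δ * δ := by ring
      _ ≤ δ * (c₀ * Real.sqrt (κ * J)) := by gcongr
      _ = c₀ * (δ * Real.sqrt (κ * J)) := by ring
      _ ≤ c₀ * Real.sqrt (vr ν * J) := by gcongr
  have hcay : ∀ᵐ x ∂ν, ‖cay x + 1‖ ≤ 2 * δ := by
    filter_upwards [hν] with x hx
    exact (cay_add_one x).trans (by linarith)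
  refine ⟨vr ν * J / 32, by positivity, ?_⟩
  intro ρ' _ hρ' z hz s hs
  have hz' := hz
  obtain ⟨hz1, hz2, hz3, hz4⟩ := hz'
  have := lev_prob ψ r
  set ρ : Measure ℝ := (lev ψ r).conv ρ' with hρdef
  have : IsProbabilityMeasure ρ := by rw [hρdef]; infer_instance
  have hρs : ρ (Set.Icc (-(r + S)) (r + S))ᶜ = 0 :=
    conv_supp _ _ r S (lev_supp ψ hψ r hr) hρ'
  obtain ⟨q, hq0, hq1, hq⟩ := hcx3 (r + S) (‖lap d‖ + ‖z‖) z.im hz3
  set w : UnitAddTorus (Fin d) → ℝ → ℂ := wz (lap d) z with hw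
  have hwc : Continuous (Function.uncurry w) := hcx4 d (lap d) z hz3.le
  have hwq : ∀ k, ∀ a ∈ Set.Icc (-(r + S)) (r + S), ‖w k a‖ ≤ q := by
    intro k a ha
    rw [hw]
    unfold wz
    apply hq
    · refine (norm_sub_le _ _).trans ?_
      gcongr
      rw [Complex.norm_real]
      exact (lap d).norm_coe_le_norm k
    · simp
    · exact abs_le.mpr ha
  have hwm : ∀ k, Measurable (w k) := fun k =>
    (hwc.comp (by fun_prop : Continuous fun a : ℝ => (k, a))).measurable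
  have hwae : ∀ k, ∀ᵐ a ∂ρ, ‖w k a‖ ≤ q := by
    intro k
    have h1 : ∀ᵐ a ∂ρ, a ∈ Set.Icc (-(r + S)) (r + S) := hρs
    filter_upwards [h1] with a ha
    exact hwq k a ha
  obtain ⟨-, -, hinv⟩ := hFIX ν d ρ (r + S) q w hvpos hρs hwc hq0 hq1 hwq
  set Z : Set C(UnitAddTorus (Fin d), ℂ) := {s | ‖s‖ ≤ 1 ∧ (∀ k, ‖s k + 1‖ ≤ 4 * δ) ∧
    ∀ k, ‖s k‖ ^ 2 ≤ 1 - vr ν * J / 16} with hZ
  have hZc : IsClosed Z := by
    have h1 : Z = {s | ‖s‖ ≤ 1} ∩ ((⋂ k, {s : C(UnitAddTorus (Fin d), ℂ) | ‖s k + 1‖ ≤ 4 * δ}) ∩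
        ⋂ k, {s : C(UnitAddTorus (Fin d), ℂ) | ‖s k‖ ^ 2 ≤ 1 - vr ν * J / 16}) := by
      ext s
      simp [hZ]
    rw [h1]
    refine IsClosed.inter (isClosed_le continuous_norm continuous_const)
      (IsClosed.inter (isClosed_iInter fun k => isClosed_le ?_ continuous_const)
        (isClosed_iInter fun k => isClosed_le ?_ continuous_const))
    · exact ((continuous_eval_const k).add continuous_const).norm
    · exact (continuous_eval_const k).norm.pow 2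
  have hZn : Z.Nonempty := by
    refine ⟨ContinuousMap.const _ (∫ x, cay x ∂ν), ?_, fun k => ?_, fun k => ?_⟩
    · rw [ContinuousMap.norm_le _ zero_le_one]
      intro k
      rw [ContinuousMap.const_apply]
      calc ‖∫ x, cay x ∂ν‖ ≤ ∫ x, ‖cay x‖ ∂ν := norm_integral_le_integral_norm _
        _ = 1 := by simp [cay_norm]
    · rw [ContinuousMap.const_apply]
      have h1 : ∫ x, cay x ∂ν + 1 = ∫ x, (cay x + 1) ∂ν := by
        rw [integral_add (cay_int ν) (integrable_const _)]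
        simp
      rw [h1]
      calc ‖∫ x, (cay x + 1) ∂ν‖ ≤ 2 * δ * (ν.real univ) := by
            exact norm_integral_le_of_norm_le_const hcay
        _ ≤ 4 * δ := by simp; linarith
    · rw [ContinuousMap.const_apply]
      have h1 : ‖∫ x, cay x ∂ν‖ ^ 2 = 1 - vr ν := by unfold vr; ring
      rw [h1]
      nlinarith
  have hZ1 : ∀ s ∈ Z, ‖s‖ ≤ 1 := fun s hs => hs.1
  have hZi : ∀ s ∈ Z, psi ν (UU ρ w s) ∈ Z := by
    rintro s ⟨hs1, hs2, hs3⟩
    have hqs : q * ‖s‖ < 1 := by nlinarith [norm_nonneg s]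
    obtain ⟨hU1, hU2⟩ := hUUC d ρ (r + S) q w s hρs hwc hq0 hq1.le hwq hs1 hqs
    have hsk : ∀ k, ‖s k‖ ≤ 1 := fun k => (s.norm_coe_le_norm k).trans hs1
    have hSC : ∀ k, 1 + s k * Bs ρ (w k) (s k) ≠ 0 ∧ 1 - UU ρ w s k * s k ≠ 0 ∧
        UU ρ w s k / (1 - UU ρ w s k * s k) = Bs ρ (w k) (s k) := by
      intro k
      obtain ⟨-, h2, -, h4, h5⟩ := hSC1 ρ (w k) q (s k) (hwm k) hq0 hq1.le (hwae k) (hsk k)
        (by nlinarith [norm_nonneg (s k), hsk k])
      rw [hU1 k]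
      exact ⟨h2, h4, h5⟩
    set B : C(UnitAddTorus (Fin d), ℂ) := ⟨fun k => UU ρ w s k / (1 - UU ρ w s k * s k), by
      apply Continuous.div (UU ρ w s).continuous
        (continuous_const.sub ((UU ρ w s).continuous.mul s.continuous))
      exact fun k => (hSC k).2.1⟩ with hB
    have hBk : ∀ k, B k = Bs ρ (w k) (s k) := fun k => (hSC k).2.2
    obtain ⟨hb1, hb2⟩ := hBJ' ρ' hρ' z hz s hs1 (fun k => (hs2 k).trans (by linarith))
    have hPk := hP ν d s (UU ρ w s) B δ J hδ hδc hcay (hU2.trans_lt hq1) hs1 hs2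
      (fun k => by rw [hBk]; exact hb1 k)
      (fun k => by
        rw [hBk, hU1 k]
        unfold Us
        exact div_mul_cancel₀ _ (hSC k).1)
      hJ (by
        refine hJJ.trans (hb2.trans (le_of_eq ?_))
        apply integral_congr_ae
        refine ae_of_all _ fun k => ?_
        simp only
        rw [hBk]) hsq
    refine ⟨?_, fun k => (hPk k).1, fun k => (hPk k).2⟩
    rw [ContinuousMap.norm_le _ zero_le_one]
    intro k
    have := (hPk k).2
    nlinarith [norm_nonneg (psi ν (UU ρ w s) k)]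
  have hsZ : s ∈ Z := hinv Z hZc hZn hZ1 hZi s hs
  rw [ContinuousMap.norm_le _ (by nlinarith)]
  intro k
  have h1 := hsZ.2.2 k
  nlinarith [norm_nonneg (s k)]

end Pool.Agent.W414.WA
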